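import Pool.Agent.H45.UC.Mob

set_option autoImplicit false

/-!
# A4: uniqueness of the limit (uniform Cardy formula)
-/

open Complex Metric Set Topology Filter MeasureTheory
open scoped ComplexConjugate Interval
open Pool.Agent.H7.UC Pool.Agent.H21.UC

noncomputable section

namespace Pool.Agent.H45.UC

theorem ee_half_cube : ee (aa / 2) ^ 3 = -1 := by
  rw [ee_cube, aa]
  push_cast
  rw [show 3 * (2 * (Real.pi : ℂ) / 3 / 2) * I = Real.pi * I by ring, exp_pi_mul_I]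

theorem ee_half_sq : ee (aa / 2) ^ 2 = tt := by
  unfold tt
  rw [sq, ← ee_add]
  congr 1
  ring

theorem T_tt {θ : ℝ} (h : θ ∈ Ioo 0 aa) : T tt (ee θ) = (tf θ : ℂ) := by
  have h1 : ee θ - 1 = -(((2 * Real.sin (θ / 2) : ℝ) : ℂ) * ee (θ / 2 - Real.pi / 2)) := by
    have := one_sub_exp (θ / 2)
    unfold ee
    rw [← this]
    push_cast
    ring_nf
  have h2 : 1 - tt * ee θ = ((2 * Real.sin (Real.pi / 3 + θ / 2) : ℝ) : ℂ) *
      (ee (aa / 2) * ee (θ / 2 - Real.pi / 2)) := by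
    have := one_sub_exp ((aa + θ) / 2)
    unfold tt
    rw [← ee_add, ← ee_add]
    unfold ee
    have e1 : (aa + θ) / 2 = Real.pi / 3 + θ / 2 := by
      unfold aa
      ring
    have e2 : (aa + θ) / 2 - Real.pi / 2 = aa / 2 + (θ / 2 - Real.pi / 2) := by ring
    rw [e2, e1] at this
    rw [← this, ← e1]
    push_cast
    ring_nf
  have h3 : tt ^ 2 - ee θ = tt ^ 2 * (1 - tt * ee θ) := by
    have := tt_cube
    linear_combination ee θ * this
  have hS := S_pos (Ioo_subset_Icc_self h)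
  have hS' : ((2 * Real.sin (Real.pi / 3 + θ / 2) : ℝ) : ℂ) ≠ 0 := by
    exact_mod_cast (by positivity : 2 * Real.sin (Real.pi / 3 + θ / 2) ≠ 0)
  have n1 : ee (aa / 2) ≠ 0 := ne_zero_of (ee_norm _)
  have n2 : ee (θ / 2 - Real.pi / 2) ≠ 0 := ne_zero_of (ee_norm _)
  have n3 : tt ≠ 0 := ne_zero_of tt_norm
  have e3 := ee_half_cube
  have e4 : tt * ee (aa / 2) = -1 := by
    rw [← ee_half_sq, ← pow_succ]
    exact e3
  rw [T, h3, h1, h2, tf]
  rw [div_eq_iff (mul_ne_zero (pow_ne_zero 2 n3) (mul_ne_zero hS' (mul_ne_zero n1 n2)))]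
  have hS2 : ((Real.sin (Real.pi / 3 + θ / 2) : ℝ) : ℂ) ≠ 0 := by
    exact_mod_cast hS.ne'
  rw [ofReal_div]
  generalize ee (θ / 2 - Real.pi / 2) = E
  generalize ee (aa / 2) = E2 at *
  generalize Real.sin (Real.pi / 3 + θ / 2) = S at *
  generalize Real.sin (θ / 2) = s
  push_cast
  field_simp
  linear_combination (-(s : ℂ) * E) * e4

theorem tt_sub_ne {θ : ℝ} (h : θ ∈ Ioo 0 aa) : tt ^ 2 - ee θ ≠ 0 := by
  intro h1
  apply ee_ne h
  rw [← sub_eq_zero.1 h1]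
  exact tt_pow 2

theorem T_tt2 {θ : ℝ} (h : θ ∈ Ioo 0 aa) : T (tt ^ 2) (tt ^ 2 * ee θ) = ((1 - tf θ : ℝ) : ℂ) := by
  have h1 := T_tt h
  have h2 := tt_sub_ne h
  push_cast
  rw [← h1, T, T]
  have h3 : (tt ^ 2) ^ 2 - tt ^ 2 * ee θ ≠ 0 := by
    rw [show (tt ^ 2) ^ 2 - tt ^ 2 * ee θ = tt ^ 2 * (tt ^ 2 - ee θ) by ring]
    exact mul_ne_zero (pow_ne_zero 2 (ne_zero_of tt_norm)) h2
  rw [one_sub_div h2, div_eq_div_iff h3 h2]
  have e2 := tt_quad
  linear_combination (tt ^ 4 * ee θ - tt ^ 4 - tt ^ 2 * ee θ ^ 2 + tt ^ 2 * ee θ) * e2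

theorem tau_tt : tau = tt := by
  unfold tau tt ee aa
  congr 1
  push_cast
  ring

theorem tf_mem {θ : ℝ} (h : θ ∈ Ioo 0 aa) : 0 < tf θ ∧ tf θ < 1 := by
  have := tf_image aa_pos le_rfl
  rw [tf_aa] at this
  have h1 : tf θ ∈ tf '' Ioo 0 aa := ⟨θ, h, rfl⟩
  rw [this] at h1
  exact h1

section Main

variable {p : Fin 3 → ℂ} {F : Fin 3 → ℂ → ℝ} (hL : LimData p F)

include hL in
/-- the value on an arc -/
theorem Kval {j : Fin 3} {w : ℂ} (hw : w ∈ arc p j) :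
    ∑ i : Fin 3, tau ^ (i : ℕ) * (F i w : ℂ) =
      tt ^ (j : ℕ) * (1 + (tt - 1) * (F (j + 1) w : ℂ)) := by
  have h1 : w ∈ closedBall (0 : ℂ) 1 \ range p :=
    ⟨mem_closedBall_zero_iff.2 hw.1.le, arc_notMem_range hL.inj hw⟩
  have h2 := hL.sum w h1
  have h3 := hL.bdry j w hw
  rw [tau_tt]
  have h4 := tt_cube
  rw [Fin.sum_univ_three] at h2 ⊢
  have h5 : (F 0 w : ℂ) + (F 1 w : ℂ) + (F 2 w : ℂ) = 1 := by exact_mod_cast h2
  fin_cases j
  · change F 2 w = 0 at h3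
    rw [h3] at h5 ⊢
    change _ = tt ^ 0 * (1 + (tt - 1) * (F 1 w : ℂ))
    simp only [Fin.val_zero, Fin.val_one, Fin.val_two, pow_zero, pow_one, ofReal_zero] at h5 ⊢
    linear_combination h5
  · change F 0 w = 0 at h3
    rw [h3] at h5 ⊢
    change _ = tt ^ 1 * (1 + (tt - 1) * (F 2 w : ℂ))
    simp only [Fin.val_zero, Fin.val_one, Fin.val_two, pow_zero, pow_one, ofReal_zero] at h5 ⊢
    linear_combination tt * h5
  · change F 1 w = 0 at h3
    rw [h3] at h5 ⊢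
    change _ = tt ^ 2 * (1 + (tt - 1) * (F 0 w : ℂ))
    simp only [Fin.val_zero, Fin.val_one, Fin.val_two, pow_zero, pow_one, ofReal_zero] at h5 ⊢
    linear_combination tt ^ 2 * h5 - (F 0 w : ℂ) * h4

end Main

theorem A4_holds : A4 := by
  intro p F hL q0 hq0
  obtain ⟨hab, hbc, hca⟩ := ne3 hL.inj 0
  change p 0 ≠ p 1 at hab
  change p 1 ≠ p 2 at hbc
  change p 2 ≠ p 0 at hca
  have ha := hL.mark 0
  have hb := hL.mark 1
  have hc := hL.mark 2
  obtain ⟨e, hee, κ, hκ, hk⟩ := exists_e ha hb hc hab hbc hca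
  have he : e ^ 3 = 1 := by
    rcases hee with rfl | rfl
    · exact tt_cube
    · exact tt_pow 2
  have he1 : e ≠ 1 := by
    rcases hee with rfl | rfl
    · exact tt_ne1
    · exact ttsq_ne1
  set m := mm (p 0) (p 1) (p 2) e with hm
  have m1 : ContinuousOn m (closedBall 0 1) := mm_cont ha hb hc hab hbc hca he he1 hκ hk
  have m2 : DifferentiableOn ℂ m (ball 0 1) := mm_diff ha hb hc hab hbc hca he he1 hκ hk
  have m3 : ∀ q, ‖q‖ < 1 → ‖m q‖ < 1 := fun q hq => mm_lt ha hb hc hab hbc hca he he1 hκ hk hq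
  have m4 : ∀ q, ‖q‖ = 1 → ‖m q‖ = 1 := fun q hq => mm_one ha hb hc hab hbc hca he he1 hκ hk hq
  have m5 := fun q (hq : q ∈ Dm) => mm_crossR ha hb hc hab hbc hca he he1 hκ hk hq
  have m6 : ∀ q ∈ Dm, m q ∈ closedBall (0 : ℂ) 1 \ range p := by
    intro q hq
    obtain ⟨-, -, -, n1, n2, n3⟩ := m5 q hq
    refine ⟨?_, ?_⟩
    · rw [mem_closedBall_zero_iff]
      rcases lt_or_eq_of_le hq.1 with h | h
      · exact (m3 q h).le
      · exact (m4 q h).le
    · rintro ⟨j, hj⟩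
      fin_cases j
      · exact n1 hj.symm
      · exact n2 hj.symm
      · exact n3 hj.symm
  have m7 : ∀ (j : Fin 3), ∀ q ∈ Dm,
      crossR (p j) (m q) (p (j + 1)) (p (j + 2)) = T e (e ^ (2 * (j : ℕ)) * q) := by
    intro j q hq
    obtain ⟨n1, n2, n3, -, -, -⟩ := m5 q hq
    fin_cases j
    · change crossR (p 0) (m q) (p 1) (p 2) = T e (e ^ 0 * q)
      rw [pow_zero, one_mul]
      exact n1
    · change crossR (p 1) (m q) (p 2) (p 0) = T e (e ^ 2 * q)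
      exact n2
    · change crossR (p 2) (m q) (p 0) (p 1) = T e (e ^ 4 * q)
      rw [show e ^ 4 = e by linear_combination e * he]
      exact n3
  set K : ℂ → ℂ := fun q => ∑ i : Fin 3, tau ^ (i : ℕ) * (F i (m q) : ℂ) with hK
  have hdK : DifferentiableOn ℂ K (ball 0 1) := by
    exact hL.holo.comp m2 (fun q hq => mem_ball_zero_iff.2 (m3 q (mem_ball_zero_iff.1 hq)))
  have hcK : ContinuousOn K Dm := by
    apply continuousOn_finsetSum
    intro i _
    apply continuousOn_const.mul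
    apply Complex.continuous_ofReal.comp_continuousOn
    exact (hL.cont i).comp (m1.mono (fun q hq => mem_closedBall_zero_iff.2 hq.1)) m6
  have hBK : ∀ q ∈ Dm, ‖K q‖ ≤ 1 := by
    intro q hq
    have h1 := hL.sum _ (m6 q hq)
    calc ‖K q‖ ≤ ∑ i : Fin 3, ‖tau ^ (i : ℕ) * (F i (m q) : ℂ)‖ := norm_sum_le _ _
      _ = ∑ i : Fin 3, F i (m q) := by
          apply Finset.sum_congr rfl
          intro i _
          rw [norm_mul, norm_pow, tau_tt, tt_norm, one_pow, one_mul, norm_real, Real.norm_eq_abs,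
            abs_of_nonneg (hL.nonneg i _ (m6 q hq))]
      _ ≤ 1 := h1.le
  rcases hee with rfl | rfl
  · -- right orientation
    have hf : ∀ j : Fin 3, ∀ θ ∈ Ioo 0 aa, K (tt ^ (j : ℕ) * ee θ) =
        tt ^ (j : ℕ) * (1 + (tt - 1) * (F (j + 1) (m (tt ^ (j : ℕ) * ee θ)) : ℂ)) := by
      intro j θ hθ
      apply Kval hL
      have h1 := mem_Dm' (tt_pow j) hθ
      have h2 : crossR (p j) (m (tt ^ (j : ℕ) * ee θ)) (p (j + 1)) (p (j + 2)) = (tf θ : ℂ) := by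
        rw [m7 j _ h1, ← T_tt hθ, ← mul_assoc, ← pow_add,
          show 2 * (j : ℕ) + j = j * 3 by ring, pow_mul, tt_pow, one_mul]
      refine ⟨m4 _ ?_, ?_, ?_⟩
      · rw [norm_mul, norm_pow, tt_norm, one_pow, one_mul, ee_norm]
      · rw [h2, ofReal_re]
        exact (tf_mem hθ).1
      · rw [h2, ofReal_re]
        exact (tf_mem hθ).2
    have h1 := ccw hdK hcK hBK hf
    -- find the angle
    have h2 : (crossR (p 0) q0 (p 1) (p 2)).re ∈ tf '' Ioo 0 aa := by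
      rw [tf_image aa_pos le_rfl, tf_aa]
      exact ⟨hq0.2.1, hq0.2.2⟩
    obtain ⟨θ, hθ, hθ2⟩ := h2
    have h3 := h1 θ hθ
    simp only [Fin.val_zero, pow_zero, one_mul, zero_add] at h3
    have h4 : ee θ ∈ Dm := by
      have := mem_Dm' (one_pow 3) hθ
      rwa [one_mul] at this
    have h5 : m (ee θ) = q0 := by
      have h6 := m7 0 (ee θ) h4
      change crossR (p 0) (m (ee θ)) (p 1) (p 2) = T tt (tt ^ 0 * ee θ) at h6
      rw [pow_zero, one_mul, T_tt hθ, hθ2, crossR_real ha hb hc hq0.1] at h6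
      have h7 : mob (p 0) (p 1) (p 2) (crossR (p 0) (m (ee θ)) (p 1) (p 2)) = m (ee θ) :=
        mob_crossR hab hbc hca (m5 _ h4).2.2.2.2.2
      have h8 : mob (p 0) (p 1) (p 2) (crossR (p 0) q0 (p 1) (p 2)) = q0 :=
        mob_crossR hab hbc hca (arc_ne hL.inj hq0).2.2
      rw [h6, h8] at h7
      exact h7.symm
    rw [h5] at h3
    rw [h3, ← hθ2, be_cardy hθ.1 hθ.2.le]
  · -- wrong orientation
    exfalso
    apply cw hdK hcK hBK (d := tt ^ 2) (pow_ne_zero 2 (ne_zero_of tt_norm))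
      (f := fun l θ => F ((2 - l) + 1) (m (tt ^ (l : ℕ) * ee θ)))
    intro l θ hθ
    have h1 := mem_Dm' (tt_pow l) hθ
    have hjl : (((2 - l : Fin 3) : ℕ) : ℕ) + (l : ℕ) = 2 := by
      fin_cases l <;> rfl
    have h2 : crossR (p (2 - l)) (m (tt ^ (l : ℕ) * ee θ)) (p (2 - l + 1)) (p (2 - l + 2)) =
        ((1 - tf θ : ℝ) : ℂ) := by
      rw [m7 (2 - l) _ h1, ← T_tt2 hθ, ← mul_assoc, ← pow_mul, ← pow_add,
        show 2 * (2 * ((2 - l : Fin 3) : ℕ)) + (l : ℕ) =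
          ((2 - l : Fin 3) : ℕ) * 3 + (((2 - l : Fin 3) : ℕ) + (l : ℕ)) by ring, pow_add,
        pow_mul, tt_pow, one_mul, hjl]
    have h3 : m (tt ^ (l : ℕ) * ee θ) ∈ arc p (2 - l) := by
      refine ⟨m4 _ ?_, ?_, ?_⟩
      · rw [norm_mul, norm_pow, tt_norm, one_pow, one_mul, ee_norm]
      · rw [h2, ofReal_re]
        linarith [(tf_mem hθ).2]
      · rw [h2, ofReal_re]
        linarith [(tf_mem hθ).1]
    have h4 : K (tt ^ (l : ℕ) * ee θ) = _ := Kval hL h3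
    rw [h4, ← mul_assoc, ← pow_add, add_comm (l : ℕ), hjl]

end Pool.Agent.H45.UC
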