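import Pool.Agent.H45.UC.Sc

set_option autoImplicit false

/-!
# Cauchy's theorem against `sc` on the unit circle, folded to one arc
-/

open Complex Metric Set Topology Filter MeasureTheory
open scoped ComplexConjugate Interval

noncomputable section

namespace Pool.Agent.H45.UC

theorem gg_le {θ : ℝ} (h : θ ∈ Ioo 0 aa) :
    gg θ ≤ θ ^ (-2 / 3 : ℝ) + (aa - θ) ^ (-2 / 3 : ℝ) := by
  have hpi := Real.pi_pos
  have hpi4 := Real.pi_le_four
  have hs := sin_pos' h
  obtain ⟨h1, h2⟩ := h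
  have h2' : θ < 2 * Real.pi / 3 := h2
  rcases le_or_gt θ (Real.pi / 3) with h3 | h3
  · have e1 := Real.mul_le_sin (x := 3 * θ / 2) (by linarith) (by linarith)
    have e2 : θ ≤ 2 * Real.sin (3 * θ / 2) := by
      have : θ ≤ 2 * (2 / Real.pi * (3 * θ / 2)) := by
        have e3 : 2 * (2 / Real.pi * (3 * θ / 2)) = 6 * θ / Real.pi := by
          field_simp
          ring
        rw [e3, le_div_iff₀ hpi]
        nlinarith
      linarith
    have e3 : gg θ ≤ θ ^ (-2 / 3 : ℝ) :=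
      Real.rpow_le_rpow_of_nonpos h1 e2 (by norm_num)
    have e4 : 0 ≤ (aa - θ) ^ (-2 / 3 : ℝ) := Real.rpow_nonneg (by linarith [h2]) _
    linarith
  · have e1 := Real.mul_le_sin (x := Real.pi - 3 * θ / 2) (by linarith) (by linarith)
    rw [Real.sin_pi_sub] at e1
    have e2 : aa - θ ≤ 2 * Real.sin (3 * θ / 2) := by
      have : aa - θ ≤ 2 * (2 / Real.pi * (Real.pi - 3 * θ / 2)) := by
        have e3 : 2 * (2 / Real.pi * (Real.pi - 3 * θ / 2)) = 6 * (aa - θ) / Real.pi := by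
          unfold aa
          field_simp
          ring
        rw [e3, le_div_iff₀ hpi]
        have : 0 < aa - θ := by linarith [h2]
        nlinarith
      linarith
    have e3 : gg θ ≤ (aa - θ) ^ (-2 / 3 : ℝ) :=
      Real.rpow_le_rpow_of_nonpos (by linarith [h2]) e2 (by norm_num)
    have e4 : 0 ≤ θ ^ (-2 / 3 : ℝ) := Real.rpow_nonneg h1.le _
    linarith

theorem gg_meas : Measurable gg := by
  unfold gg
  fun_prop

theorem ae_Ioo {x : ℝ} (hx : x ≤ aa) : ∀ᵐ θ ∂(volume : Measure ℝ), θ ∈ Ι 0 x → 0 ≤ x →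
    θ ∈ Ioo 0 aa := by
  have : ∀ᵐ θ ∂(volume : Measure ℝ), θ ≠ aa := by
    simp [ae_iff]
  filter_upwards [this] with θ h1 h2 h3
  rw [uIoc_of_le h3] at h2
  exact ⟨h2.1, lt_of_le_of_ne (h2.2.trans hx) h1⟩

theorem gg_int : IntervalIntegrable gg volume 0 aa := by
  have h1 : IntervalIntegrable (fun θ : ℝ => θ ^ (-2 / 3 : ℝ)) volume 0 aa :=
    intervalIntegral.intervalIntegrable_rpow' (by norm_num)
  have h2 : IntervalIntegrable (fun θ : ℝ => (aa - θ) ^ (-2 / 3 : ℝ)) volume 0 aa := by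
    have := (h1.comp_sub_left aa).symm
    simpa using this
  apply (h1.add h2).mono_fun' gg_meas.aestronglyMeasurable
  rw [EventuallyLE, ae_restrict_iff' measurableSet_uIoc]
  filter_upwards [ae_Ioo le_rfl] with θ h3 h4
  have h5 := h3 h4 aa_pos.le
  rw [Real.norm_eq_abs, abs_of_pos (gg_pos h5)]
  exact gg_le h5

theorem gg_int' {x : ℝ} (h0 : 0 ≤ x) (hx : x ≤ aa) : IntervalIntegrable gg volume 0 x :=
  gg_int.mono_set (by
    rw [uIcc_of_le h0, uIcc_of_le aa_pos.le]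
    exact Icc_subset_Icc le_rfl hx)

/-- the closed disc without the cube roots of unity -/
def Dm : Set ℂ := {q | ‖q‖ ≤ 1 ∧ q ^ 3 ≠ 1}

theorem mem_Dm {q : ℂ} (h : ‖q‖ < 1) : q ∈ Dm := ⟨h.le, cube_ne h⟩

theorem mem_Dm' {c : ℂ} (hc : c ^ 3 = 1) {θ : ℝ} (h : θ ∈ Ioo 0 aa) : c * ee θ ∈ Dm := by
  refine ⟨?_, ?_⟩
  · have : ‖c‖ ^ 3 = 1 := by rw [← norm_pow, hc, norm_one]
    have h1 : ‖c‖ = 1 := by
      rw [← pow_left_inj₀ (norm_nonneg _) zero_le_one (by norm_num : 3 ≠ 0), this, one_pow]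
    rw [norm_mul, ee_norm, h1, mul_one]
  · rw [mul_pow, hc, one_mul]
    exact ee_ne h

theorem norm_cube {c : ℂ} (hc : c ^ 3 = 1) : ‖c‖ = 1 := by
  have : ‖c‖ ^ 3 = 1 := by rw [← norm_pow, hc, norm_one]
  rw [← pow_left_inj₀ (norm_nonneg _) zero_le_one (by norm_num : 3 ≠ 0), this, one_pow]

theorem sc_bound {θ : ℝ} (h : θ ∈ Ioo 0 aa) {r : ℝ} (h0 : 0 ≤ r) (h1 : r ≤ 1) :
    ‖sc (r * ee θ)‖ ≤ 2 * gg θ := by
  rw [sc_norm, mul_pow]
  have e1 : ‖ee θ ^ 3‖ = 1 := by rw [norm_pow, ee_norm, one_pow]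
  have e2 := lower e1 (pow_nonneg h0 3) (pow_le_one₀ h0 h1)
  push_cast at e2
  rw [norm_one_sub_cube h] at e2
  have hs := sin_pos' h
  have e3 : Real.sin (3 * θ / 2) ≤ ‖1 - (r : ℂ) ^ 3 * ee θ ^ 3‖ := by linarith
  calc ‖1 - (r : ℂ) ^ 3 * ee θ ^ 3‖ ^ (-2 / 3 : ℝ) ≤ Real.sin (3 * θ / 2) ^ (-2 / 3 : ℝ) :=
        Real.rpow_le_rpow_of_nonpos hs e3 (by norm_num)
    _ = (2 : ℝ) ^ (2 / 3 : ℝ) * gg θ := by
        unfold gg
        rw [Real.mul_rpow (by norm_num) hs.le, ← mul_assoc, ← Real.rpow_add (by norm_num)]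
        norm_num
    _ ≤ 2 * gg θ := by
        apply mul_le_mul_of_nonneg_right _ (gg_pos h).le
        calc (2 : ℝ) ^ (2 / 3 : ℝ) ≤ 2 ^ (1 : ℝ) :=
              Real.rpow_le_rpow_of_exponent_le (by norm_num) (by norm_num)
          _ = 2 := Real.rpow_one 2

theorem sc_cont : ContinuousOn sc Dm := fun q hq =>
  (sc_diffAt hq.1 hq.2).continuousAt.continuousWithinAt

theorem io_mem : Ioo (0 : ℝ) 1 ∈ 𝓝[<] (1 : ℝ) := Ioo_mem_nhdsLT (by norm_num)

/-- the integrals over smaller circles converge -/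
theorem lim {G : ℂ → ℂ} (hG : ContinuousOn G Dm) {B : ℝ} (hB : ∀ q, ‖q‖ < 1 → ‖G q‖ ≤ B)
    {c : ℂ} (hc : c ^ 3 = 1) {x : ℝ} (h0 : 0 ≤ x) (hx : x ≤ aa) :
    Tendsto (fun r : ℝ => ∫ θ in (0 : ℝ)..x, G (c * (r * ee θ)) * (I * (r * ee θ) * sc (r * ee θ)))
      (𝓝[<] 1) (𝓝 (∫ θ in (0 : ℝ)..x, G (c * ee θ) * (I * ee θ * sc (ee θ)))) := by
  have hcn := norm_cube hc
  apply intervalIntegral.tendsto_integral_filter_of_dominated_convergence
    (fun θ => B * (2 * gg θ))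
  · filter_upwards [io_mem] with r hr
    apply Continuous.aestronglyMeasurable
    have h1 : ∀ θ, ‖c * (r * ee θ)‖ < 1 := by
      intro θ
      rw [norm_mul, norm_mul, hcn, ee_norm, one_mul, mul_one, norm_real, Real.norm_eq_abs,
        abs_of_pos hr.1]
      exact hr.2
    have h2 : ∀ θ, ‖r * ee θ‖ < 1 := by
      intro θ
      rw [norm_mul, ee_norm, mul_one, norm_real, Real.norm_eq_abs, abs_of_pos hr.1]
      exact hr.2
    have he := ee_cont
    apply Continuous.mul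
    · exact hG.comp_continuous (by fun_prop) (fun θ => mem_Dm (h1 θ))
    · apply Continuous.mul (by fun_prop)
      exact sc_cont.comp_continuous (by fun_prop) (fun θ => mem_Dm (h2 θ))
  · filter_upwards [io_mem] with r hr
    filter_upwards [ae_Ioo hx] with θ h3 h4
    have h5 := h3 h4 h0
    have h1 : ‖c * (r * ee θ)‖ < 1 := by
      rw [norm_mul, norm_mul, hcn, ee_norm, one_mul, mul_one, norm_real, Real.norm_eq_abs,
        abs_of_pos hr.1]
      exact hr.2
    have h2 : ‖I * (r * ee θ)‖ ≤ 1 := by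
      rw [norm_mul, norm_mul, ee_norm, norm_I, one_mul, mul_one, norm_real, Real.norm_eq_abs,
        abs_of_pos hr.1]
      exact hr.2.le
    rw [norm_mul, norm_mul]
    have h6 := sc_bound h5 hr.1.le hr.2.le
    have h7 := hB _ h1
    have h8 : 0 ≤ B := (norm_nonneg _).trans h7
    have h9 := gg_pos h5
    calc ‖G (c * (r * ee θ))‖ * (‖I * (r * ee θ)‖ * ‖sc (r * ee θ)‖)
        ≤ B * (1 * (2 * gg θ)) := by gcongr
      _ = B * (2 * gg θ) := by ring
  · exact ((gg_int' h0 hx).const_mul 2).const_mul B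
  · filter_upwards [ae_Ioo hx] with θ h3 h4
    have h5 := h3 h4 h0
    have hr : Tendsto (fun r : ℝ => (r : ℂ) * ee θ) (𝓝[<] 1) (𝓝[Dm] (ee θ)) := by
      rw [tendsto_nhdsWithin_iff]
      refine ⟨?_, ?_⟩
      · have : Tendsto (fun r : ℝ => (r : ℂ) * ee θ) (𝓝 1) (𝓝 (((1 : ℝ) : ℂ) * ee θ)) := by
          apply Continuous.tendsto
          fun_prop
        rw [ofReal_one, one_mul] at this
        exact this.mono_left nhdsWithin_le_nhds
      · filter_upwards [io_mem] with r hr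
        apply mem_Dm
        rw [norm_mul, ee_norm, mul_one, norm_real, Real.norm_eq_abs, abs_of_pos hr.1]
        exact hr.2
    have hr' : Tendsto (fun r : ℝ => c * ((r : ℂ) * ee θ)) (𝓝[<] 1) (𝓝[Dm] (c * ee θ)) := by
      rw [tendsto_nhdsWithin_iff] at hr ⊢
      refine ⟨hr.1.const_mul c, ?_⟩
      filter_upwards [io_mem] with r hr
      apply mem_Dm
      rw [norm_mul, norm_mul, hcn, ee_norm, one_mul, mul_one, norm_real, Real.norm_eq_abs,
        abs_of_pos hr.1]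
      exact hr.2
    have m1 : ee θ ∈ Dm := by
      have := mem_Dm' (one_pow 3) h5
      rwa [one_mul] at this
    have t1 := (hG _ (mem_Dm' hc h5)).tendsto.comp hr'
    have t2 := (sc_cont _ m1).tendsto.comp hr
    have t3 := (tendsto_nhdsWithin_iff.1 hr).1
    exact t1.mul ((t3.const_mul I).mul t2)

/-- the circle integral vanishes -/
theorem circ {K : ℂ → ℂ} (hd : DifferentiableOn ℂ K (ball 0 1)) {r : ℝ} (hr : r ∈ Ioo (0 : ℝ) 1) :
    ∫ θ in (0 : ℝ)..(2 * Real.pi), K (r * ee θ) * (I * (r * ee θ) * sc (r * ee θ)) = 0 := by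
  have h1 : DiffContOnCl ℂ (fun q => K q * sc q) (ball 0 r) := by
    apply DifferentiableOn.diffContOnCl
    apply (hd.mul sc_diff).mono
    refine (closure_ball_subset_closedBall).trans (closedBall_subset_ball hr.2)
  have h2 := h1.circleIntegral_eq_zero hr.1.le
  rw [circleIntegral_def_Icc] at h2
  rw [← h2, intervalIntegral.integral_of_le (by positivity), ← integral_Icc_eq_integral_Ioc]
  apply setIntegral_congr_fun measurableSet_Icc
  intro θ _
  simp only [deriv_circleMap, circleMap, zero_add, smul_eq_mul]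
  unfold ee
  ring

/-- `ee aa` is a primitive cube root of unity -/
def tt : ℂ := ee aa

theorem tt_cube : tt ^ 3 = 1 := by
  unfold tt
  rw [ee_cube, aa]
  push_cast
  rw [show (3 * (2 * (Real.pi : ℂ) / 3) * I) = 2 * Real.pi * I by ring, exp_two_pi_mul_I]

/-- the folded circle integral -/
theorem circ3 {K : ℂ → ℂ} (hd : DifferentiableOn ℂ K (ball 0 1)) {r : ℝ}
    (hr : r ∈ Ioo (0 : ℝ) 1) :
    ∑ j : Fin 3, tt ^ (j : ℕ) *
      ∫ θ in (0 : ℝ)..aa, K (tt ^ (j : ℕ) * (r * ee θ)) * (I * (r * ee θ) * sc (r * ee θ)) = 0 := by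
  have h := circ hd hr
  have hrn : ∀ θ, ‖r * ee θ‖ < 1 := by
    intro θ
    rw [norm_mul, ee_norm, mul_one, norm_real, Real.norm_eq_abs, abs_of_pos hr.1]
    exact hr.2
  have hcont : Continuous (fun θ => K (r * ee θ) * (I * (r * ee θ) * sc (r * ee θ))) := by
    have he := ee_cont
    apply Continuous.mul
    · exact hd.continuousOn.comp_continuous (by fun_prop)
        (fun θ => mem_ball_zero_iff.2 (hrn θ))
    · apply Continuous.mul (by fun_prop)
      exact sc_diff.continuousOn.comp_continuous (by fun_prop)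
        (fun θ => mem_ball_zero_iff.2 (hrn θ))
  have e3 : 2 * Real.pi = aa + aa + aa := by
    unfold aa
    ring
  rw [e3, ← intervalIntegral.integral_add_adjacent_intervals (hcont.intervalIntegrable 0 (aa + aa))
    (hcont.intervalIntegrable _ _), ← intervalIntegral.integral_add_adjacent_intervals
    (hcont.intervalIntegrable 0 aa) (hcont.intervalIntegrable _ _)] at h
  have s1 : ∀ b : ℝ, (∀ q, sc (ee b * q) = sc q) →
      ∫ θ in b..(b + aa), K (r * ee θ) * (I * (r * ee θ) * sc (r * ee θ)) =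
      ee b * ∫ θ in (0 : ℝ)..aa, K (ee b * (r * ee θ)) * (I * (r * ee θ) * sc (r * ee θ)) := by
    intro b hb
    rw [← intervalIntegral.integral_const_mul]
    have e4 := intervalIntegral.integral_comp_add_left
      (fun θ => K (r * ee θ) * (I * (r * ee θ) * sc (r * ee θ))) b (a := 0) (b := aa)
    rw [add_zero] at e4
    rw [← e4]
    apply intervalIntegral.integral_congr
    intro θ _
    simp only [ee_add]
    rw [show (r : ℂ) * (ee b * ee θ) = ee b * (r * ee θ) by ring, hb]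
    ring
  have t2 : ee (aa + aa) = tt ^ 2 := by rw [ee_add, sq, tt]
  rw [s1 aa (fun q => sc_mul tt_cube), show aa + aa + aa = (aa + aa) + aa from rfl,
    s1 (aa + aa) (fun q => by
      rw [t2]
      apply sc_mul
      rw [← pow_mul, mul_comm, pow_mul, tt_cube, one_pow])] at h
  rw [Fin.sum_univ_three]
  simp only [Fin.val_zero, Fin.val_one, Fin.val_two, pow_zero, one_mul, pow_one]
  rw [t2] at h
  exact h

/-- **Cauchy's theorem, folded.** -/
theorem cauchy {K : ℂ → ℂ} (hd : DifferentiableOn ℂ K (ball 0 1)) (hc : ContinuousOn K Dm) {B : ℝ}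
    (hB : ∀ q, ‖q‖ < 1 → ‖K q‖ ≤ B) :
    ∑ j : Fin 3, tt ^ (j : ℕ) * ∫ θ in (0 : ℝ)..aa, K (tt ^ (j : ℕ) * ee θ) * (gg θ : ℂ) = 0 := by
  have h1 : Tendsto (fun r : ℝ => ∑ j : Fin 3, tt ^ (j : ℕ) *
      ∫ θ in (0 : ℝ)..aa, K (tt ^ (j : ℕ) * (r * ee θ)) * (I * (r * ee θ) * sc (r * ee θ)))
      (𝓝[<] 1) (𝓝 (∑ j : Fin 3, tt ^ (j : ℕ) *
        ∫ θ in (0 : ℝ)..aa, K (tt ^ (j : ℕ) * ee θ) * (I * ee θ * sc (ee θ)))) := by
    apply tendsto_finsetSum
    intro j _
    apply Tendsto.const_mul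
    apply lim hc hB _ aa_pos.le le_rfl
    rw [← pow_mul, mul_comm, pow_mul, tt_cube, one_pow]
  have h2 : Tendsto (fun r : ℝ => ∑ j : Fin 3, tt ^ (j : ℕ) *
      ∫ θ in (0 : ℝ)..aa, K (tt ^ (j : ℕ) * (r * ee θ)) * (I * (r * ee θ) * sc (r * ee θ)))
      (𝓝[<] 1) (𝓝 0) := by
    apply tendsto_const_nhds.congr'
    filter_upwards [io_mem] with r hr
    exact (circ3 hd hr).symm
  have h3 := tendsto_nhds_unique h1 h2
  have h4 : ∀ j : Fin 3, ∫ θ in (0 : ℝ)..aa, K (tt ^ (j : ℕ) * ee θ) * (I * ee θ * sc (ee θ)) =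
      exp ((5 * Real.pi / 6 : ℝ) * I) *
        ∫ θ in (0 : ℝ)..aa, K (tt ^ (j : ℕ) * ee θ) * (gg θ : ℂ) := by
    intro j
    rw [← intervalIntegral.integral_const_mul]
    apply intervalIntegral.integral_congr_ae
    filter_upwards [ae_Ioo le_rfl] with θ h5 h6
    rw [dir (h5 h6 aa_pos.le)]
    ring
  simp only [h4] at h3
  have h5 : exp ((5 * Real.pi / 6 : ℝ) * I) * ∑ j : Fin 3, tt ^ (j : ℕ) *
      ∫ θ in (0 : ℝ)..aa, K (tt ^ (j : ℕ) * ee θ) * (gg θ : ℂ) = 0 := by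
    rw [← h3, Finset.mul_sum]
    apply Finset.sum_congr rfl
    intro j _
    ring
  exact (mul_eq_zero.1 h5).resolve_left (exp_ne_zero _)

end Pool.Agent.H45.UC
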