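import Pool.Agent.H45.UC.Phi
import Pool.Agent.H13.Q1.FourG

set_option autoImplicit false

/-!
# The normalised arc length is Cardy's function of the cross ratio
-/

open Metric Set Topology Filter MeasureTheory
open Pool.Agent.H13.Q1.Four

noncomputable section

namespace Pool.Agent.H45.UC

/-- cross ratio of `1, ee u, tt, tt^2` -/
def tf (u : ℝ) : ℝ := Real.sin (u / 2) / Real.sin (Real.pi / 3 + u / 2)

theorem S_pos {u : ℝ} (h : u ∈ Icc 0 aa) : 0 < Real.sin (Real.pi / 3 + u / 2) := by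
  obtain ⟨h1, h2⟩ := h
  unfold aa at h2
  have := Real.pi_pos
  exact Real.sin_pos_of_pos_of_lt_pi (by linarith) (by linarith)

theorem tf_deriv {u : ℝ} (h : u ∈ Icc 0 aa) :
    HasDerivAt tf (Real.sqrt 3 / 4 / Real.sin (Real.pi / 3 + u / 2) ^ 2) u := by
  have hS := S_pos h
  have h1 : HasDerivAt (fun u : ℝ => u / 2) (1 / 2) u := (hasDerivAt_id u).div_const 2
  have h2 : HasDerivAt (fun u : ℝ => Real.pi / 3 + u / 2) (1 / 2) u := h1.const_add _
  have h3 := h1.sin
  have h4 := h2.sin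
  have h5 := h3.div h4 hS.ne'
  refine h5.congr_deriv ?_
  congr 1
  have h6 : Real.sin (Real.pi / 3) = Real.sin (Real.pi / 3 + u / 2) * Real.cos (u / 2) -
      Real.cos (Real.pi / 3 + u / 2) * Real.sin (u / 2) := by
    rw [← Real.sin_sub]
    congr 1
    ring
  rw [Real.sin_pi_div_three] at h6
  linarith

theorem tf_cont : ContinuousOn tf (Icc 0 aa) := fun u hu =>
  (tf_deriv hu).continuousAt.continuousWithinAt

theorem tf_mono : StrictMonoOn tf (Icc 0 aa) := by
  apply strictMonoOn_of_deriv_pos (convex_Icc 0 aa) tf_cont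
  intro u hu
  rw [interior_Icc] at hu
  have hu' := Ioo_subset_Icc_self hu
  rw [(tf_deriv hu').deriv]
  have := S_pos hu'
  positivity

theorem tf_zero : tf 0 = 0 := by
  simp [tf]

theorem tf_aa : tf aa = 1 := by
  have hS := S_pos (right_mem_Icc.2 aa_pos.le)
  unfold tf
  rw [div_eq_one_iff_eq hS.ne', ← Real.sin_pi_sub]
  congr 1
  unfold aa
  ring

theorem tf_image {x : ℝ} (h0 : 0 < x) (hx : x ≤ aa) : tf '' Ioo 0 x = Ioo 0 (tf x) := by
  apply Subset.antisymm
  · rintro _ ⟨u, hu, rfl⟩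
    refine ⟨?_, ?_⟩
    · rw [← tf_zero]
      exact tf_mono (left_mem_Icc.2 aa_pos.le) ⟨hu.1.le, hu.2.le.trans hx⟩ hu.1
    · exact tf_mono ⟨hu.1.le, hu.2.le.trans hx⟩ ⟨h0.le, hx⟩ hu.2
  · have := intermediate_value_Ioo h0.le (tf_cont.mono (Icc_subset_Icc le_rfl hx))
    rw [tf_zero] at this
    exact this

theorem tf_bet {u : ℝ} (h : u ∈ Ioo 0 aa) :
    |Real.sqrt 3 / 4 / Real.sin (Real.pi / 3 + u / 2) ^ 2| * bet (tf u) =
      Real.sqrt 3 * gg u := by
  have hS := S_pos (Ioo_subset_Icc_self h)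
  obtain ⟨h1, h2⟩ := h
  unfold aa at h2
  have hpi := Real.pi_pos
  have hA : 0 < Real.sin (u / 2) := Real.sin_pos_of_pos_of_lt_pi (by linarith) (by linarith)
  have hC : 0 < Real.sin (Real.pi / 3 - u / 2) :=
    Real.sin_pos_of_pos_of_lt_pi (by linarith) (by linarith)
  have h3 : 0 < Real.sqrt 3 := Real.sqrt_pos.2 (by norm_num)
  have h3' : Real.sqrt 3 ^ 2 = 3 := Real.sq_sqrt (by norm_num)
  have e1 : 1 - tf u = Real.sin (Real.pi / 3 - u / 2) / Real.sin (Real.pi / 3 + u / 2) := by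
    unfold tf
    rw [eq_div_iff hS.ne', sub_mul, div_mul_cancel₀ _ hS.ne', one_mul, Real.sin_add, Real.sin_sub,
      Real.cos_pi_div_three]
    ring
  have e2 : Real.sin (3 * u / 2) = 4 * Real.sin (u / 2) * Real.sin (Real.pi / 3 - u / 2) *
      Real.sin (Real.pi / 3 + u / 2) := by
    rw [show 3 * u / 2 = 3 * (u / 2) by ring, Real.sin_three_mul, Real.sin_add, Real.sin_sub,
      Real.cos_pi_div_three, Real.sin_pi_div_three]
    have := Real.sin_sq_add_cos_sq (u / 2)
    linear_combination (-Real.sin (u / 2) * Real.cos (u / 2) ^ 2) * h3' +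
      (-3 * Real.sin (u / 2)) * this
  have hbet : 0 < bet (tf u) := by
    unfold bet
    rw [e1]
    unfold tf
    positivity
  have hg : 0 < gg u := gg_pos ⟨h1, h2⟩
  rw [abs_of_pos (by positivity)]
  rw [← pow_left_inj₀ (n := 3) (by positivity) (by positivity) (by norm_num)]
  unfold bet gg
  rw [e1]
  simp only [mul_pow]
  rw [cube_rpow (by unfold tf; positivity), cube_rpow (by positivity),
    cube_rpow (by rw [e2]; positivity), e2]
  unfold tf
  field_simp
  ring_nf

theorem be_cardy {x : ℝ} (h0 : 0 < x) (hx : x ≤ aa) : be x = cardy (tf x) := by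
  have h3 : 0 < Real.sqrt 3 := Real.sqrt_pos.2 (by norm_num)
  have key : ∀ y : ℝ, 0 < y → y ≤ aa → ∫ s in (0 : ℝ)..(tf y), bet s =
      Real.sqrt 3 * ∫ u in (0 : ℝ)..y, gg u := by
    intro y hy hy'
    have hsub : Ioo 0 y ⊆ Icc 0 aa := fun u hu => ⟨hu.1.le, hu.2.le.trans hy'⟩
    have hty : 0 < tf y := by
      rw [← tf_zero]
      exact tf_mono (left_mem_Icc.2 aa_pos.le) ⟨hy.le, hy'⟩ hy
    apply change (f := tf)
      (f' := fun u => Real.sqrt 3 / 4 / Real.sin (Real.pi / 3 + u / 2) ^ 2) hy hty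
    · intro u hu
      exact tf_deriv (hsub hu)
    · exact tf_mono.injOn.mono hsub
    · exact tf_image hy hy'
    · intro u hu
      exact tf_bet ⟨hu.1, hu.2.trans_le hy'⟩
  have k1 := key x h0 hx
  have k2 := key aa aa_pos le_rfl
  rw [tf_aa] at k2
  rw [cardy, k1, k2, be, GG, mul_div_mul_left _ _ h3.ne']

end Pool.Agent.H45.UC
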