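import Pool.Agent.H45.UC.Uni
import Pool.Agent.H45.UC.Ch
import Pool.Agent.H21.UC.Circ

set_option autoImplicit false

/-!
# Moebius normalisation of three marks on the circle
-/

open Complex Metric Set Topology Filter MeasureTheory
open scoped ComplexConjugate Interval
open Pool.Agent.H7.UC Pool.Agent.H21.UC

noncomputable section

namespace Pool.Agent.H45.UC

/-- numerator -/
def nu (a b c e q : ℂ) : ℂ := a * (c - b) * (e ^ 2 - q) + e * (q - 1) * c * (b - a)
/-- denominator -/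
def de (a b c e q : ℂ) : ℂ := (c - b) * (e ^ 2 - q) + e * (q - 1) * (b - a)
/-- orientation -/
def vv (a b c : ℂ) : ℂ := (c - b) * (a - b) * (a - c) / (a * b * c)
/-- cross ratio of `1, q, e, e^2` -/
def T (e q : ℂ) : ℂ := e * (q - 1) / (e ^ 2 - q)

theorem de_sub {a b c e : ℂ} (ha : ‖a‖ = 1) (hb : ‖b‖ = 1) (hc : ‖c‖ = 1) (he : e ^ 3 = 1)
    (hen : ‖e‖ = 1) (he1 : e ≠ 1) (q : ℂ) :
    de a b c e q * conj (de a b c e q) - nu a b c e q * conj (nu a b c e q) =
      vv a b c * (e - e ^ 2) * (1 - q * conj q) := by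
  have ha0 := ne_zero_of ha
  have hb0 := ne_zero_of hb
  have hc0 := ne_zero_of hc
  have he0 := ne_zero_of hen
  have he2 : conj e = e ^ 2 := by
    rw [conj_inv hen]
    field_simp
    exact he.symm
  have hq : e ^ 2 + e + 1 = 0 := by
    have : (e - 1) * (e ^ 2 + e + 1) = 0 := by linear_combination he
    exact (mul_eq_zero.1 this).resolve_left (sub_ne_zero.2 he1)
  have he4 : (e ^ 2) ^ 2 = e := by linear_combination e * he
  have c1 : conj (de a b c e q) = (a * (b - c) * (e - conj q) +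
      e ^ 2 * (conj q - 1) * c * (a - b)) / (a * b * c) := by
    unfold de
    simp only [map_add, map_sub, map_mul, map_pow, map_one, conj_inv ha, conj_inv hb, conj_inv hc,
      he2, he4]
    field_simp
  have c2 : conj (nu a b c e q) = ((b - c) * (e - conj q) +
      e ^ 2 * (conj q - 1) * (a - b)) / (a * b * c) := by
    unfold nu
    simp only [map_add, map_sub, map_mul, map_pow, map_one, conj_inv ha, conj_inv hb, conj_inv hc,
      he2, he4]
    field_simp
  rw [c1, c2]
  unfold de nu vv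
  generalize conj q = w
  field_simp
  linear_combination ((e ^ 2 - e) * (w - 1) * (a - b) * (a - c) * (b - c)) * hq

theorem tt_ne1 : tt ≠ 1 := sub_ne_zero.1 tt_ne

theorem tt_quad : tt ^ 2 + tt + 1 = 0 := by
  have : (tt - 1) * (tt ^ 2 + tt + 1) = 0 := by linear_combination tt_cube
  exact (mul_eq_zero.1 this).resolve_left tt_ne

theorem tt_norm : ‖tt‖ = 1 := norm_cube tt_cube

theorem ttsq_ne1 : tt ^ 2 ≠ 1 := by
  intro h
  apply tt_ne1
  have := tt_cube
  calc tt = tt ^ 3 := by rw [pow_succ, h, one_mul]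
    _ = 1 := tt_cube

theorem vv_ne {a b c : ℂ} (ha : ‖a‖ = 1) (hb : ‖b‖ = 1) (hc : ‖c‖ = 1) (hab : a ≠ b)
    (hbc : b ≠ c) (hca : c ≠ a) : vv a b c ≠ 0 := by
  have ha0 := ne_zero_of ha
  have hb0 := ne_zero_of hb
  have hc0 := ne_zero_of hc
  unfold vv
  apply div_ne_zero
  · exact mul_ne_zero (mul_ne_zero (sub_ne_zero.2 hbc.symm) (sub_ne_zero.2 hab))
      (sub_ne_zero.2 hca.symm)
  · exact mul_ne_zero (mul_ne_zero ha0 hb0) hc0

theorem exists_e {a b c : ℂ} (ha : ‖a‖ = 1) (hb : ‖b‖ = 1) (hc : ‖c‖ = 1) (hab : a ≠ b)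
    (hbc : b ≠ c) (hca : c ≠ a) : ∃ e, (e = tt ∨ e = tt ^ 2) ∧ ∃ κ : ℝ, 0 < κ ∧
      vv a b c * (e - e ^ 2) = κ := by
  have h1 := de_sub ha hb hc tt_cube tt_norm tt_ne1 0
  rw [map_zero, mul_zero, sub_zero, mul_one, Complex.mul_conj, Complex.mul_conj, ← ofReal_sub] at h1
  set κ := normSq (de a b c tt 0) - normSq (nu a b c tt 0)
  have h2 : κ ≠ 0 := by
    intro h
    rw [h, ofReal_zero] at h1
    have h3 := (mul_eq_zero.1 h1.symm).resolve_left (vv_ne ha hb hc hab hbc hca)
    have h4 : tt * (1 - tt) = 0 := by linear_combination h3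
    rcases mul_eq_zero.1 h4 with h5 | h5
    · exact ne_zero_of tt_norm h5
    · exact tt_ne1 (sub_eq_zero.1 h5).symm
  rcases lt_or_gt_of_ne h2 with h | h
  · refine ⟨tt ^ 2, Or.inr rfl, -κ, by linarith, ?_⟩
    push_cast
    rw [h1]
    have := tt_cube
    linear_combination (-vv a b c * tt) * this
  · exact ⟨tt, Or.inl rfl, κ, h, h1.symm⟩

section Map

variable {a b c e : ℂ} (ha : ‖a‖ = 1) (hb : ‖b‖ = 1) (hc : ‖c‖ = 1) (hab : a ≠ b)
    (hbc : b ≠ c) (hca : c ≠ a) (he : e ^ 3 = 1) (he1 : e ≠ 1) {κ : ℝ} (hκ : 0 < κ)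
    (hk : vv a b c * (e - e ^ 2) = κ)

include ha hb hc he he1 hk in
theorem nd (q : ℂ) : normSq (de a b c e q) - normSq (nu a b c e q) = κ * (1 - normSq q) := by
  have h1 := de_sub ha hb hc he (norm_cube he) he1 q
  rw [hk, Complex.mul_conj, Complex.mul_conj, Complex.mul_conj] at h1
  exact_mod_cast h1

include ha hb hc hab hbc hca he he1 hκ hk in
theorem de_ne {q : ℂ} (hq : ‖q‖ ≤ 1) : de a b c e q ≠ 0 := by
  intro h
  have h1 := nd ha hb hc he he1 hk q
  rw [h, map_zero, zero_sub] at h1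
  have h2 : normSq q ≤ 1 := by
    rw [Complex.normSq_eq_norm_sq]
    exact pow_le_one₀ (norm_nonneg _) hq
  have h3 : normSq (nu a b c e q) = 0 := by
    have := normSq_nonneg (nu a b c e q)
    nlinarith
  have h4 := normSq_eq_zero.1 h3
  have h5 : nu a b c e q - a * de a b c e q = e * (q - 1) * (b - a) * (c - a) := by
    unfold nu de
    ring
  rw [h4, h, mul_zero, sub_zero] at h5
  have he0 := ne_zero_of (norm_cube he)
  have h6 : q = 1 := by
    have h7 := (mul_eq_zero.1 h5.symm).resolve_right (sub_ne_zero.2 hca)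
    have h8 := (mul_eq_zero.1 h7).resolve_right (sub_ne_zero.2 hab.symm)
    exact sub_eq_zero.1 ((mul_eq_zero.1 h8).resolve_left he0)
  rw [h6] at h
  unfold de at h
  have h7 : (c - b) * (e - 1) * (e + 1) = 0 := by linear_combination h
  have h8 : e + 1 ≠ 0 := by
    intro h9
    have : e = -1 := by linear_combination h9
    rw [this] at he
    norm_num at he
  exact (mul_ne_zero (mul_ne_zero (sub_ne_zero.2 hbc.symm) (sub_ne_zero.2 he1)) h8) h7

/-- the Moebius map -/
def mm (a b c e q : ℂ) : ℂ := nu a b c e q / de a b c e q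

include ha hb hc hab hbc hca he he1 hκ hk in
theorem mm_cont : ContinuousOn (mm a b c e) (closedBall 0 1) := by
  unfold mm
  apply ContinuousOn.div
  · unfold nu
    fun_prop
  · unfold de
    fun_prop
  · intro q hq
    exact de_ne ha hb hc hab hbc hca he he1 hκ hk (mem_closedBall_zero_iff.1 hq)

include ha hb hc hab hbc hca he he1 hκ hk in
theorem mm_diff : DifferentiableOn ℂ (mm a b c e) (ball 0 1) := by
  unfold mm
  apply DifferentiableOn.div
  · unfold nu
    fun_prop
  · unfold de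
    fun_prop
  · intro q hq
    exact de_ne ha hb hc hab hbc hca he he1 hκ hk (mem_ball_zero_iff.1 hq).le

include ha hb hc hab hbc hca he he1 hκ hk in
theorem mm_lt {q : ℂ} (hq : ‖q‖ < 1) : ‖mm a b c e q‖ < 1 := by
  have h0 := de_ne ha hb hc hab hbc hca he he1 hκ hk hq.le
  have h1 := nd ha hb hc he he1 hk q
  have h2 : normSq q < 1 := by
    rw [Complex.normSq_eq_norm_sq]
    exact pow_lt_one₀ (norm_nonneg _) hq (by norm_num)
  have h3 : normSq (nu a b c e q) < normSq (de a b c e q) := by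
    have : 0 < κ * (1 - normSq q) := mul_pos hκ (by linarith)
    linarith
  unfold mm
  rw [norm_div, div_lt_one (norm_pos_iff.2 h0)]
  rw [Complex.normSq_eq_norm_sq, Complex.normSq_eq_norm_sq] at h3
  exact lt_of_pow_lt_pow_left₀ 2 (norm_nonneg _) h3

include ha hb hc hab hbc hca he he1 hκ hk in
theorem mm_one {q : ℂ} (hq : ‖q‖ = 1) : ‖mm a b c e q‖ = 1 := by
  have h0 := de_ne ha hb hc hab hbc hca he he1 hκ hk hq.le
  have h1 := nd ha hb hc he he1 hk q
  have h2 : normSq q = 1 := by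
    rw [Complex.normSq_eq_norm_sq, hq, one_pow]
  rw [h2, sub_self, mul_zero, Complex.normSq_eq_norm_sq, Complex.normSq_eq_norm_sq,
    sub_eq_zero] at h1
  unfold mm
  rw [norm_div, div_eq_one_iff_eq (norm_ne_zero_iff.2 h0)]
  exact ((pow_left_inj₀ (norm_nonneg _) (norm_nonneg _) two_ne_zero).1 h1).symm

include ha hb hc hab hbc hca he he1 hκ hk in
theorem mm_sub {q : ℂ} (hq : ‖q‖ ≤ 1) :
    mm a b c e q - a = e * (q - 1) * (b - a) * (c - a) / de a b c e q ∧
    b - mm a b c e q = -((b - a) * (c - b) * e ^ 2 * (e - q)) / de a b c e q ∧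
    c - mm a b c e q = (c - b) * (c - a) * (e ^ 2 - q) / de a b c e q := by
  have h0 := de_ne ha hb hc hab hbc hca he he1 hκ hk hq
  have hqd : e ^ 2 + e + 1 = 0 := by
    have : (e - 1) * (e ^ 2 + e + 1) = 0 := by linear_combination he
    exact (mul_eq_zero.1 this).resolve_left (sub_ne_zero.2 he1)
  refine ⟨?_, ?_, ?_⟩
  · rw [eq_div_iff h0, mm, sub_mul, div_mul_cancel₀ _ h0]
    unfold nu de
    ring
  · rw [eq_div_iff h0, mm, sub_mul, div_mul_cancel₀ _ h0]
    unfold nu de
    linear_combination ((b - a) * (c - b) * (e - q)) * hqd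
  · rw [eq_div_iff h0, mm, sub_mul, div_mul_cancel₀ _ h0]
    unfold nu de
    ring

include ha hb hc hab hbc hca he he1 hκ hk in
theorem mm_crossR {q : ℂ} (hq : q ∈ Dm) :
    crossR a (mm a b c e q) b c = T e q ∧ crossR b (mm a b c e q) c a = T e (e ^ 2 * q) ∧
    crossR c (mm a b c e q) a b = T e (e * q) ∧ mm a b c e q ≠ a ∧ mm a b c e q ≠ b ∧
    mm a b c e q ≠ c := by
  obtain ⟨h1, h2, h3⟩ := mm_sub ha hb hc hab hbc hca he he1 hκ hk hq.1
  have h0 := de_ne ha hb hc hab hbc hca he he1 hκ hk hq.1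
  have he0 := ne_zero_of (norm_cube he)
  have q1 : q - 1 ≠ 0 := by
    intro h
    apply hq.2
    rw [sub_eq_zero.1 h, one_pow]
  have q2 : e - q ≠ 0 := by
    intro h
    apply hq.2
    rw [← sub_eq_zero.1 h, he]
  have q3 : e ^ 2 - q ≠ 0 := by
    intro h
    apply hq.2
    rw [← sub_eq_zero.1 h, ← pow_mul, mul_comm, pow_mul, he, one_pow]
  have n1 : b - a ≠ 0 := sub_ne_zero.2 hab.symm
  have n2 : c - b ≠ 0 := sub_ne_zero.2 hbc.symm
  have n3 : c - a ≠ 0 := sub_ne_zero.2 hca
  have n1' : a - b ≠ 0 := sub_ne_zero.2 hab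
  have n2' : b - c ≠ 0 := sub_ne_zero.2 hbc
  have n3' : a - c ≠ 0 := sub_ne_zero.2 hca.symm
  refine ⟨?_, ?_, ?_, ?_, ?_, ?_⟩
  · rw [crossR, h1, h3, T]
    field_simp
  · rw [crossR, show mm a b c e q - b = -(b - mm a b c e q) by ring,
      show a - mm a b c e q = -(mm a b c e q - a) by ring, h1, h2, T]
    have d1 : e ^ 2 - e ^ 2 * q ≠ 0 := by
      rw [show e ^ 2 - e ^ 2 * q = -(e ^ 2 * (q - 1)) by ring]
      exact neg_ne_zero.2 (mul_ne_zero (pow_ne_zero 2 he0) q1)
    have q1' : 1 - q ≠ 0 := by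
      intro h
      apply q1
      linear_combination -h
    field_simp
    linear_combination ((c - a) * (1 - q)) * he
  · rw [crossR, show mm a b c e q - c = -(c - mm a b c e q) by ring, h3, h2, T]
    have d1 : e ^ 2 - e * q ≠ 0 := by
      rw [show e ^ 2 - e * q = e * (e - q) by ring]
      exact mul_ne_zero he0 q2
    field_simp
    linear_combination ((c - a) * q) * he
  · intro h
    rw [h, sub_self] at h1
    exact (div_ne_zero (mul_ne_zero (mul_ne_zero (mul_ne_zero he0 q1) n1) n3) h0) h1.symm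
  · intro h
    rw [h, sub_self] at h2
    exact (div_ne_zero (neg_ne_zero.2 (mul_ne_zero (mul_ne_zero (mul_ne_zero n1 n2)
      (pow_ne_zero 2 he0)) q2)) h0) h2.symm
  · intro h
    rw [h, sub_self] at h3
    exact (div_ne_zero (mul_ne_zero (mul_ne_zero n2 n3) q3) h0) h3.symm

end Map

end Pool.Agent.H45.UC
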