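import Pool.Agent.H45.UC.Cau

set_option autoImplicit false

/-!
# The map of the disc onto the equilateral triangle
-/

open Complex Metric Set Topology Filter MeasureTheory
open scoped ComplexConjugate Interval

noncomputable section

namespace Pool.Agent.H45.UC

/-- primitive of `sc` -/
def Sc (q : ℂ) : ℂ := q * ∫ s in (0 : ℝ)..1, sc (s * q)

theorem sc_meas : Measurable sc := by
  unfold sc
  fun_prop

theorem sc_ray {q : ℂ} (hq : ‖q‖ ≤ 1) {s : ℝ} (hs : s ∈ Ioo (0 : ℝ) 1) :
    ‖sc (s * q)‖ ≤ (1 - s) ^ (-2 / 3 : ℝ) := by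
  rw [sc_norm]
  apply Real.rpow_le_rpow_of_nonpos (by linarith [hs.2]) _ (by norm_num)
  have h1 : ‖(s * q) ^ 3‖ ≤ s := by
    rw [norm_pow, norm_mul, norm_real, Real.norm_eq_abs, abs_of_pos hs.1]
    have h2 : s * ‖q‖ ≤ s := mul_le_of_le_one_right hs.1.le hq
    have h3 : 0 ≤ s * ‖q‖ := mul_nonneg hs.1.le (norm_nonneg _)
    calc (s * ‖q‖) ^ 3 ≤ s ^ 3 := pow_le_pow_left₀ h3 h2 3
      _ ≤ s := pow_le_of_le_one hs.1.le hs.2.le (by norm_num)
  have h2 := norm_sub_norm_le (1 : ℂ) ((s * q) ^ 3)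
  rw [norm_one] at h2
  linarith

theorem ae_Ioo1 : ∀ᵐ θ ∂(volume : Measure ℝ), θ ∈ Ι (0 : ℝ) 1 → θ ∈ Ioo (0 : ℝ) 1 := by
  have : ∀ᵐ θ ∂(volume : Measure ℝ), θ ≠ 1 := by
    simp [ae_iff]
  filter_upwards [this] with θ h1 h2
  rw [uIoc_of_le zero_le_one] at h2
  exact ⟨h2.1, lt_of_le_of_ne h2.2 h1⟩

theorem Sc_cont : ContinuousOn Sc (closedBall 0 1) := by
  unfold Sc
  apply continuousOn_id.mul
  intro q hq
  have hb : IntervalIntegrable (fun s : ℝ => (1 - s) ^ (-2 / 3 : ℝ)) volume 0 1 := by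
    have h1 : IntervalIntegrable (fun s : ℝ => s ^ (-2 / 3 : ℝ)) volume 0 1 :=
      intervalIntegral.intervalIntegrable_rpow' (by norm_num)
    have := (h1.comp_sub_left 1).symm
    simpa using this
  apply intervalIntegral.continuousWithinAt_of_dominated_interval
    (bound := fun s : ℝ => (1 - s) ^ (-2 / 3 : ℝ))
  · apply Eventually.of_forall
    intro q
    apply Measurable.aestronglyMeasurable
    exact sc_meas.comp (by fun_prop)
  · filter_upwards [self_mem_nhdsWithin] with q hq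
    filter_upwards [ae_Ioo1] with s hs hs'
    exact sc_ray (mem_closedBall_zero_iff.1 hq) (hs hs')
  · exact hb
  · filter_upwards [ae_Ioo1] with s hs hs'
    have h := hs hs'
    apply ContinuousAt.continuousWithinAt
    have h1 : ‖(s : ℂ) * q‖ < 1 := by
      rw [norm_mul, norm_real, Real.norm_eq_abs, abs_of_pos h.1]
      have := mem_closedBall_zero_iff.1 hq
      calc s * ‖q‖ ≤ s * 1 := mul_le_mul_of_nonneg_left this h.1.le
        _ < 1 := by linarith [h.2]
    have h2 := (sc_diffAt h1.le (cube_ne h1)).continuousAt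
    exact ContinuousAt.comp (f := fun q : ℂ => (s : ℂ) * q) h2 (by fun_prop)

theorem Sc_mul {t q : ℂ} (ht : t ^ 3 = 1) : Sc (t * q) = t * Sc q := by
  unfold Sc
  have : ∀ s : ℝ, sc (s * (t * q)) = sc (s * q) := by
    intro s
    rw [show (s : ℂ) * (t * q) = t * (s * q) by ring, sc_mul ht]
  simp only [this]
  ring

theorem Sc_prim {q : ℂ} (hq : ‖q‖ < 1) : HasDerivAt Sc (sc q) q := by
  obtain ⟨P, hP0, hP⟩ := (sc_diff.isExactOn_ball).with_val_at 0 0
  have key : ∀ q : ℂ, ‖q‖ < 1 → Sc q = P q := by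
    intro q hq
    have hb : ∀ s ∈ uIcc (0 : ℝ) 1, (s : ℂ) * q ∈ ball (0 : ℂ) 1 := by
      intro s hs
      rw [uIcc_of_le zero_le_one] at hs
      rw [mem_ball_zero_iff, norm_mul, norm_real, Real.norm_eq_abs, abs_of_nonneg hs.1]
      calc s * ‖q‖ ≤ 1 * ‖q‖ := mul_le_mul_of_nonneg_right hs.2 (norm_nonneg _)
        _ < 1 := by linarith
    have h1 : ∫ s in (0 : ℝ)..1, q * sc (s * q) = P ((1 : ℝ) * q) - P ((0 : ℝ) * q) := by
      apply intervalIntegral.integral_eq_sub_of_hasDerivAt (f := fun s : ℝ => P (s * q))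
      · intro s hs
        have h2 := hP _ (hb s hs)
        have h3 : HasDerivAt (fun s : ℝ => (s : ℂ) * q) q s := by
          have := (Complex.ofRealCLM.hasDerivAt (x := s)).mul_const q
          simpa using this
        have h4 := h2.comp s h3
        refine h4.congr_deriv ?_
        ring
      · apply ContinuousOn.intervalIntegrable
        apply ContinuousOn.mul continuousOn_const
        exact sc_diff.continuousOn.comp (by fun_prop) hb
    rw [intervalIntegral.integral_const_mul] at h1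
    rw [Sc, h1]
    simp [hP0]
  have h1 := hP q (mem_ball_zero_iff.2 hq)
  apply h1.congr_of_eventuallyEq
  filter_upwards [isOpen_ball.mem_nhds (mem_ball_zero_iff.2 hq)] with w hw
  exact key w (mem_ball_zero_iff.1 hw)

/-- values on the circle -/
theorem Sc_ee {x : ℝ} (h0 : 0 ≤ x) (hx : x ≤ aa) :
    Sc (ee x) = Sc 1 + exp ((5 * Real.pi / 6 : ℝ) * I) * ((∫ θ in (0 : ℝ)..x, gg θ : ℝ) : ℂ) := by
  have h1 := lim (G := fun _ => 1) continuousOn_const (B := 1) (by simp) (one_pow 3) h0 hx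
  simp only [one_mul] at h1
  have h2 : ∀ r ∈ Ioo (0 : ℝ) 1, ∫ θ in (0 : ℝ)..x, I * (r * ee θ) * sc (r * ee θ) =
      Sc (r * ee x) - Sc r := by
    intro r hr
    have hrn : ∀ θ, ‖r * ee θ‖ < 1 := by
      intro θ
      rw [norm_mul, ee_norm, mul_one, norm_real, Real.norm_eq_abs, abs_of_pos hr.1]
      exact hr.2
    have e0 : (r : ℂ) = r * ee 0 := by
      unfold ee
      simp
    nth_rewrite 4 [e0]
    apply intervalIntegral.integral_eq_sub_of_hasDerivAt (f := fun θ : ℝ => Sc (r * ee θ))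
    · intro θ _
      have h3 := Sc_prim (hrn θ)
      have h4 : HasDerivAt (fun θ : ℝ => (r : ℂ) * ee θ) (r * (ee θ * I)) θ := by
        apply HasDerivAt.const_mul
        unfold ee
        have h5 : HasDerivAt (fun θ : ℝ => (θ : ℂ) * I) I θ := by
          have := (Complex.ofRealCLM.hasDerivAt (x := θ)).mul_const I
          simpa using this
        exact h5.cexp
      have h5 := h3.comp θ h4
      refine h5.congr_deriv ?_
      ring
    · apply Continuous.intervalIntegrable
      have he := ee_cont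
      apply Continuous.mul (by fun_prop)
      exact sc_diff.continuousOn.comp_continuous (by fun_prop)
        (fun θ => mem_ball_zero_iff.2 (hrn θ))
  have h3 : Tendsto (fun r : ℝ => Sc (r * ee x) - Sc r) (𝓝[<] 1) (𝓝 (Sc (ee x) - Sc 1)) := by
    have key : ∀ w : ℂ, ‖w‖ = 1 → Tendsto (fun r : ℝ => Sc (r * w)) (𝓝[<] 1) (𝓝 (Sc w)) := by
      intro w hw
      have m : w ∈ closedBall (0 : ℂ) 1 := mem_closedBall_zero_iff.2 hw.le
      have h4 : Tendsto (fun r : ℝ => (r : ℂ) * w) (𝓝[<] 1) (𝓝[closedBall 0 1] w) := by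
        rw [tendsto_nhdsWithin_iff]
        refine ⟨?_, ?_⟩
        · have : Tendsto (fun r : ℝ => (r : ℂ) * w) (𝓝 1) (𝓝 (((1 : ℝ) : ℂ) * w)) := by
            apply Continuous.tendsto
            fun_prop
          rw [ofReal_one, one_mul] at this
          exact this.mono_left nhdsWithin_le_nhds
        · filter_upwards [io_mem] with r hr
          rw [mem_closedBall_zero_iff, norm_mul, hw, mul_one, norm_real, Real.norm_eq_abs,
            abs_of_pos hr.1]
          exact hr.2.le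
      exact (Sc_cont w m).tendsto.comp h4
    have k1 := key (ee x) (ee_norm x)
    have k2 := key 1 norm_one
    simp only [mul_one] at k2
    exact k1.sub k2
  have h4 : Tendsto (fun r : ℝ => Sc (r * ee x) - Sc r) (𝓝[<] 1)
      (𝓝 (∫ θ in (0 : ℝ)..x, I * ee θ * sc (ee θ))) := by
    apply h1.congr'
    filter_upwards [io_mem] with r hr
    exact h2 r hr
  have h5 := tendsto_nhds_unique h3 h4
  have h6 : ∫ θ in (0 : ℝ)..x, I * ee θ * sc (ee θ) =
      exp ((5 * Real.pi / 6 : ℝ) * I) * ((∫ θ in (0 : ℝ)..x, gg θ : ℝ) : ℂ) := by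
    rw [← intervalIntegral.integral_ofReal, ← intervalIntegral.integral_const_mul]
    apply intervalIntegral.integral_congr_ae
    filter_upwards [ae_Ioo hx] with θ h7 h8
    rw [dir (h7 h8 h0)]
    ring
  rw [← h6, ← h5]
  ring

/-- total length of the arc -/
def GG : ℝ := ∫ θ in (0 : ℝ)..aa, gg θ

theorem GG_pos : 0 < GG := by
  unfold GG
  apply intervalIntegral.intervalIntegral_pos_of_pos_on gg_int _ aa_pos
  intro θ hθ
  exact gg_pos hθ

/-- normalised length -/
def be (x : ℝ) : ℝ := (∫ θ in (0 : ℝ)..x, gg θ) / GG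

theorem Sc_one : (tt - 1) * Sc 1 = exp ((5 * Real.pi / 6 : ℝ) * I) * (GG : ℂ) := by
  have h1 := Sc_ee aa_pos.le le_rfl
  have h2 : Sc (ee aa) = tt * Sc 1 := by
    have := Sc_mul (t := tt) (q := 1) tt_cube
    rw [mul_one] at this
    exact this
  rw [h2] at h1
  rw [GG]
  linear_combination h1

theorem Sc_one_ne : Sc 1 ≠ 0 := by
  intro h
  have h1 := Sc_one
  rw [h, mul_zero] at h1
  have h2 : (GG : ℂ) ≠ 0 := by exact_mod_cast GG_pos.ne'
  exact (mul_ne_zero (exp_ne_zero _) h2) h1.symm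

/-- the map onto the triangle `1, tt, tt^2` -/
def Ph (q : ℂ) : ℂ := Sc q / Sc 1

theorem Ph_cont : ContinuousOn Ph (closedBall 0 1) := Sc_cont.div_const _

theorem Ph_diff : DifferentiableOn ℂ Ph (ball 0 1) := by
  intro q hq
  exact ((Sc_prim (mem_ball_zero_iff.1 hq)).differentiableAt.div_const _).differentiableWithinAt

theorem Ph_mul {t q : ℂ} (ht : t ^ 3 = 1) : Ph (t * q) = t * Ph q := by
  unfold Ph
  rw [Sc_mul ht]
  ring

theorem Ph_ee {x : ℝ} (h0 : 0 ≤ x) (hx : x ≤ aa) : Ph (ee x) = 1 + (tt - 1) * (be x : ℂ) := by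
  have h1 := Sc_one_ne
  have h2 : (GG : ℂ) ≠ 0 := by exact_mod_cast GG_pos.ne'
  have h3 := Sc_one
  rw [Ph, Sc_ee h0 hx, be]
  generalize exp ((5 * Real.pi / 6 : ℝ) * I) = E at h3 ⊢
  generalize (∫ θ in (0 : ℝ)..x, gg θ) = J
  push_cast
  field_simp
  linear_combination (-(J : ℂ)) * h3

end Pool.Agent.H45.UC
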