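import Mathlib

set_option autoImplicit false

/-!
# The derivative `(1 - q^3)^(-2/3)` of the Schwarz-Christoffel map of the disc with marks at the cube
roots of unity
-/

open Complex Metric Set Topology Filter MeasureTheory
open scoped ComplexConjugate Interval

noncomputable section

namespace Pool.Agent.H45.UC

/-- derivative of the Schwarz-Christoffel map -/
def sc (q : ℂ) : ℂ := (1 - q ^ 3) ^ ((-2 / 3 : ℝ) : ℂ)

/-- density on the boundary arc -/
def gg (θ : ℝ) : ℝ := (2 * Real.sin (3 * θ / 2)) ^ (-2 / 3 : ℝ)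

/-- length of the boundary arc -/
def aa : ℝ := 2 * Real.pi / 3

/-- the point of the circle -/
def ee (θ : ℝ) : ℂ := exp (θ * I)

theorem aa_pos : 0 < aa := by
  unfold aa
  positivity

theorem ee_norm (θ : ℝ) : ‖ee θ‖ = 1 := by
  unfold ee
  exact norm_exp_ofReal_mul_I θ

theorem ee_cont : Continuous ee := by
  unfold ee
  fun_prop

theorem ee_add (a b : ℝ) : ee (a + b) = ee a * ee b := by
  unfold ee
  rw [← Complex.exp_add]
  push_cast
  ring_nf

theorem ee_cube (θ : ℝ) : ee θ ^ 3 = exp (3 * θ * I) := by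
  unfold ee
  rw [← Complex.exp_nat_mul]
  push_cast
  ring_nf

theorem slit {q : ℂ} (hq : ‖q‖ ≤ 1) (h : q ^ 3 ≠ 1) : 1 - q ^ 3 ∈ slitPlane := by
  have h1 : ‖q ^ 3‖ ≤ 1 := by
    rw [norm_pow]
    exact pow_le_one₀ (norm_nonneg _) hq
  have h2 : (q ^ 3).re ^ 2 + (q ^ 3).im ^ 2 ≤ 1 := by
    have := Complex.sq_norm (q ^ 3)
    rw [Complex.normSq_apply] at this
    have h3 : ‖q ^ 3‖ ^ 2 ≤ 1 := pow_le_one₀ (norm_nonneg _) h1
    nlinarith
  left
  rw [sub_re, one_re]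
  rcases lt_or_ge (q ^ 3).re 1 with h3 | h3
  · linarith
  · exfalso
    apply h
    apply Complex.ext
    · rw [one_re]
      nlinarith [sq_nonneg (q ^ 3).im, sq_nonneg ((q ^ 3).re - 1)]
    · rw [one_im]
      nlinarith [sq_nonneg (q ^ 3).im, sq_nonneg ((q ^ 3).re - 1)]

theorem cube_ne {q : ℂ} (hq : ‖q‖ < 1) : q ^ 3 ≠ 1 := by
  intro h
  have h1 : ‖q‖ ^ 3 = 1 := by rw [← norm_pow, h, norm_one]
  have h2 : ‖q‖ ^ 3 < 1 := pow_lt_one₀ (norm_nonneg _) hq (by norm_num)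
  linarith

theorem sc_diffAt {q : ℂ} (hq : ‖q‖ ≤ 1) (h : q ^ 3 ≠ 1) : DifferentiableAt ℂ sc q := by
  unfold sc
  exact DifferentiableAt.cpow_const (by fun_prop) (slit hq h)

theorem sc_diff : DifferentiableOn ℂ sc (ball 0 1) := fun q hq => by
  rw [mem_ball_zero_iff] at hq
  exact (sc_diffAt hq.le (cube_ne hq)).differentiableWithinAt

theorem sc_norm (q : ℂ) : ‖sc q‖ = ‖1 - q ^ 3‖ ^ (-2 / 3 : ℝ) := by
  unfold sc
  exact norm_cpow_real _ _

/-- rotation -/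
theorem sc_mul {q t : ℂ} (ht : t ^ 3 = 1) : sc (t * q) = sc q := by
  unfold sc
  rw [mul_pow, ht, one_mul]

theorem lower {w : ℂ} (hw : ‖w‖ = 1) {r : ℝ} (h0 : 0 ≤ r) (h1 : r ≤ 1) :
    ‖1 - w‖ ≤ 2 * ‖1 - r * w‖ := by
  have e1 : 1 - w = (1 - r * w) - ((1 - r : ℝ) : ℂ) * w := by
    push_cast
    ring
  have e2 : ‖((1 - r : ℝ) : ℂ) * w‖ = 1 - r := by
    rw [norm_mul, hw, mul_one, norm_real, Real.norm_eq_abs, abs_of_nonneg (by linarith)]
  have e3 : 1 - r ≤ ‖1 - r * w‖ := by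
    have := norm_sub_norm_le (1 : ℂ) (r * w)
    rw [norm_one, norm_mul, hw, mul_one, norm_real, Real.norm_eq_abs, abs_of_nonneg h0] at this
    exact this
  calc ‖1 - w‖ = ‖(1 - r * w) - ((1 - r : ℝ) : ℂ) * w‖ := by rw [← e1]
    _ ≤ ‖1 - r * w‖ + ‖((1 - r : ℝ) : ℂ) * w‖ := norm_sub_le _ _
    _ ≤ 2 * ‖1 - r * w‖ := by linarith

theorem one_sub_exp (x : ℝ) : 1 - exp (2 * x * I) =
    ((2 * Real.sin x : ℝ) : ℂ) * exp ((x - Real.pi / 2 : ℝ) * I) := by
  have h1 : exp (2 * x * I) = exp (x * I) ^ 2 := by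
    rw [← Complex.exp_nat_mul]
    push_cast
    ring_nf
  have h2 : exp ((x - Real.pi / 2 : ℝ) * I) = exp (x * I) * (-I) := by
    push_cast
    rw [sub_mul, Complex.exp_sub, Complex.exp_pi_div_two_mul_I]
    field_simp
    rw [I_sq]
    ring
  rw [h1, h2, Complex.exp_mul_I]
  have h3 : Complex.cos x ^ 2 + Complex.sin x ^ 2 = 1 := by
    rw [add_comm]
    exact Complex.sin_sq_add_cos_sq x
  have h4 : I ^ 2 = -1 := I_sq
  push_cast
  linear_combination (-1 : ℂ) * h3 + (Complex.sin x) ^ 2 * h4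

theorem sin_pos' {θ : ℝ} (h : θ ∈ Ioo 0 aa) : 0 < Real.sin (3 * θ / 2) := by
  obtain ⟨h1, h2⟩ := h
  unfold aa at h2
  exact Real.sin_pos_of_pos_of_lt_pi (by linarith) (by linarith)

theorem one_sub_cube (θ : ℝ) : 1 - ee θ ^ 3 =
    ((2 * Real.sin (3 * θ / 2) : ℝ) : ℂ) * exp ((3 * θ / 2 - Real.pi / 2 : ℝ) * I) := by
  rw [ee_cube, ← one_sub_exp]
  push_cast
  ring_nf

theorem ee_ne {θ : ℝ} (h : θ ∈ Ioo 0 aa) : ee θ ^ 3 ≠ 1 := by
  intro h1
  have h2 := one_sub_cube θ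
  rw [h1, sub_self] at h2
  have h3 := sin_pos' h
  rcases mul_eq_zero.1 h2.symm with h4 | h4
  · have : (2 * Real.sin (3 * θ / 2)) = 0 := by exact_mod_cast h4
    linarith
  · exact exp_ne_zero _ h4

theorem gg_pos {θ : ℝ} (h : θ ∈ Ioo 0 aa) : 0 < gg θ := by
  have h3 := sin_pos' h
  unfold gg
  positivity

theorem norm_one_sub_cube {θ : ℝ} (h : θ ∈ Ioo 0 aa) :
    ‖1 - ee θ ^ 3‖ = 2 * Real.sin (3 * θ / 2) := by
  have h3 := sin_pos' h
  rw [one_sub_cube, norm_mul, norm_exp_ofReal_mul_I, mul_one, norm_real, Real.norm_eq_abs,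
    abs_of_pos (by positivity)]

/-- the direction of the boundary -/
theorem dir {θ : ℝ} (h : θ ∈ Ioo 0 aa) :
    I * ee θ * sc (ee θ) = (gg θ : ℂ) * exp ((5 * Real.pi / 6 : ℝ) * I) := by
  have h3 := sin_pos' h
  obtain ⟨h1, h2⟩ := h
  unfold aa at h2
  have e1 : sc (ee θ) = (gg θ : ℂ) * exp (((-2 / 3) * (3 * θ / 2 - Real.pi / 2) : ℝ) * I) := by
    unfold sc gg
    rw [one_sub_cube, Complex.cpow_def_of_ne_zero, Complex.log_ofReal_mul (by positivity)
      (exp_ne_zero _), Complex.log_exp]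
    · rw [add_mul, Complex.exp_add, Complex.ofReal_cpow (by positivity),
        Complex.cpow_def_of_ne_zero (by exact_mod_cast (by positivity :
          2 * Real.sin (3 * θ / 2) ≠ 0)), ← Complex.ofReal_log (by positivity)]
      congr 1
      push_cast
      ring_nf
    · simp
      linarith [Real.pi_pos]
    · simp
      linarith [Real.pi_pos]
    · apply mul_ne_zero _ (exp_ne_zero _)
      exact_mod_cast (by positivity : 2 * Real.sin (3 * θ / 2) ≠ 0)
  have e2 : I = exp ((Real.pi / 2 : ℝ) * I) := by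
    push_cast
    rw [Complex.exp_pi_div_two_mul_I]
  rw [e1, ee]
  nth_rewrite 1 [e2]
  have e3 : ((5 * Real.pi / 6 : ℝ) : ℂ) * I = ((Real.pi / 2 : ℝ) * I) + θ * I +
      (((-2 / 3) * (3 * θ / 2 - Real.pi / 2) : ℝ) * I) := by
    push_cast
    ring
  rw [e3, Complex.exp_add, Complex.exp_add]
  ring

end Pool.Agent.H45.UC
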