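import Pool.Agent.H45.UC.Phi

set_option autoImplicit false

/-!
# Uniqueness in the normalised disc, and impossibility of the wrong orientation
-/

open Complex Metric Set Topology Filter MeasureTheory
open scoped ComplexConjugate Interval

noncomputable section

namespace Pool.Agent.H45.UC

theorem ae_uIoc_Ioo : ∀ᵐ θ ∂(volume : Measure ℝ).restrict (Ι 0 aa), θ ∈ Ioo 0 aa := by
  rw [ae_restrict_iff' measurableSet_uIoc]
  filter_upwards [ae_Ioo le_rfl] with θ h1 h2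
  exact h1 h2 aa_pos.le

theorem intble {φ : ℝ → ℂ} (hφ : ContinuousOn φ (Ioo 0 aa)) {C : ℝ}
    (hC : ∀ θ ∈ Ioo 0 aa, ‖φ θ‖ ≤ C) :
    IntervalIntegrable (fun θ => φ θ * (gg θ : ℂ)) volume 0 aa := by
  apply (gg_int.const_mul C).mono_fun'
  · apply AEStronglyMeasurable.mul
    · rw [uIoc_of_le aa_pos.le, ← restrict_Ioo_eq_restrict_Ioc]
      exact hφ.aestronglyMeasurable measurableSet_Ioo
    · exact (Complex.measurable_ofReal.comp gg_meas).aestronglyMeasurable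
  · filter_upwards [ae_uIoc_Ioo] with θ h
    rw [norm_mul, norm_real, Real.norm_eq_abs, abs_of_pos (gg_pos h)]
    exact mul_le_mul_of_nonneg_right (hC θ h) (gg_pos h).le

theorem tt_im : tt.im ≠ 0 := by
  have h : tt.im = Real.sin aa := by
    unfold tt ee
    rw [exp_ofReal_mul_I_im]
  rw [h, aa]
  apply ne_of_gt
  apply Real.sin_pos_of_pos_of_lt_pi
  · positivity
  · linarith [Real.pi_pos]

theorem tt_ne : tt - 1 ≠ 0 := by
  intro h
  apply tt_im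
  have := congrArg Complex.im h
  simpa using this

theorem tt_pow (j : ℕ) : (tt ^ j) ^ 3 = 1 := by
  rw [← pow_mul, mul_comm, pow_mul, tt_cube, one_pow]

theorem arc_cont {K : ℂ → ℂ} (hc : ContinuousOn K Dm) (j : ℕ) :
    ContinuousOn (fun θ => K (tt ^ j * ee θ)) (Ioo 0 aa) := by
  have he := ee_cont
  exact hc.comp (by fun_prop) (fun θ hθ => mem_Dm' (tt_pow j) hθ)

/-- wrong orientation -/
theorem cw {K : ℂ → ℂ} (hd : DifferentiableOn ℂ K (ball 0 1)) (hc : ContinuousOn K Dm) {B : ℝ}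
    (hB : ∀ q ∈ Dm, ‖K q‖ ≤ B) {f : Fin 3 → ℝ → ℝ} {d : ℂ} (hd0 : d ≠ 0)
    (hf : ∀ j : Fin 3, ∀ θ ∈ Ioo 0 aa, tt ^ (j : ℕ) * K (tt ^ (j : ℕ) * ee θ) =
      d * (1 + (tt - 1) * (f j θ : ℂ))) : False := by
  have h1 := cauchy hd hc (B := B) (fun q hq => hB q (mem_Dm hq))
  set w : ℂ := (d * (tt - 1))⁻¹ with hw
  have h2 : ∀ j : Fin 3, (w * (tt ^ (j : ℕ) *
      ∫ θ in (0 : ℝ)..aa, K (tt ^ (j : ℕ) * ee θ) * (gg θ : ℂ))).im = ((tt - 1)⁻¹).im * GG := by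
    intro j
    rw [← mul_assoc, ← intervalIntegral.integral_const_mul]
    have h3 : IntervalIntegrable (fun θ => w * tt ^ (j : ℕ) * (K (tt ^ (j : ℕ) * ee θ) *
        (gg θ : ℂ))) volume 0 aa :=
      (intble (arc_cont hc j) (C := B) (fun θ hθ => hB _ (mem_Dm' (tt_pow j) hθ))).const_mul _
    have h4 := Complex.imCLM.intervalIntegral_comp_comm h3
    simp only [Complex.imCLM_apply] at h4
    rw [← h4, GG, ← intervalIntegral.integral_const_mul]
    apply intervalIntegral.integral_congr_ae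
    filter_upwards [ae_Ioo le_rfl] with θ h5 h6
    have h7 := hf j θ (h5 h6 aa_pos.le)
    have e1 : w * tt ^ (j : ℕ) * (K (tt ^ (j : ℕ) * ee θ) * (gg θ : ℂ)) =
        (gg θ : ℂ) * ((tt - 1)⁻¹ + (f j θ : ℂ)) := by
      have : w * tt ^ (j : ℕ) * (K (tt ^ (j : ℕ) * ee θ) * (gg θ : ℂ)) =
        w * (tt ^ (j : ℕ) * K (tt ^ (j : ℕ) * ee θ)) * (gg θ : ℂ) := by ring
      rw [this, h7, hw]
      have := tt_ne
      field_simp
    rw [e1, Complex.im_ofReal_mul]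
    simp only [add_im, ofReal_im, add_zero]
    ring
  have h3 : (w * ∑ j : Fin 3, tt ^ (j : ℕ) *
      ∫ θ in (0 : ℝ)..aa, K (tt ^ (j : ℕ) * ee θ) * (gg θ : ℂ)).im = 0 := by
    rw [h1, mul_zero, zero_im]
  rw [Finset.mul_sum, Complex.im_sum] at h3
  simp only [h2] at h3
  rw [Finset.sum_const, Finset.card_univ, Fintype.card_fin, nsmul_eq_mul] at h3
  have h4 : ((tt - 1)⁻¹).im ≠ 0 := by
    rw [Complex.inv_im]
    apply div_ne_zero
    · simp only [sub_im, one_im, sub_zero]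
      exact neg_ne_zero.2 tt_im
    · exact (Complex.normSq_pos.2 tt_ne).ne'
  rcases mul_eq_zero.1 h3 with h5 | h5
  · norm_num at h5
  · exact (mul_ne_zero h4 GG_pos.ne') h5

/-- uniqueness -/
theorem ccw {K : ℂ → ℂ} (hd : DifferentiableOn ℂ K (ball 0 1)) (hc : ContinuousOn K Dm) {B : ℝ}
    (hB : ∀ q ∈ Dm, ‖K q‖ ≤ B) {f : Fin 3 → ℝ → ℝ}
    (hf : ∀ j : Fin 3, ∀ θ ∈ Ioo 0 aa, K (tt ^ (j : ℕ) * ee θ) =
      tt ^ (j : ℕ) * (1 + (tt - 1) * (f j θ : ℂ))) : ∀ θ ∈ Ioo 0 aa, f 0 θ = be θ := by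
  obtain ⟨B', hB'⟩ := (isCompact_closedBall (0 : ℂ) 1).exists_bound_of_continuousOn Ph_cont
  have hsub : Dm ⊆ closedBall 0 1 := fun q hq => mem_closedBall_zero_iff.2 hq.1
  have hKP : ∀ q ∈ Dm, ‖K q - Ph q‖ ≤ B + B' := fun q hq =>
    (norm_sub_le _ _).trans (add_le_add (hB q hq) (hB' q (hsub hq)))
  have hcK : ContinuousOn (fun q => (K q - Ph q) ^ 2) Dm := (hc.sub (Ph_cont.mono hsub)).pow 2
  have hdK : DifferentiableOn ℂ (fun q => (K q - Ph q) ^ 2) (ball 0 1) := (hd.sub Ph_diff).pow 2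
  have hBK : ∀ q ∈ Dm, ‖(K q - Ph q) ^ 2‖ ≤ (B + B') ^ 2 := by
    intro q hq
    rw [norm_pow]
    exact pow_le_pow_left₀ (norm_nonneg _) (hKP q hq) 2
  have h1 := cauchy hdK hcK (fun q hq => hBK q (mem_Dm hq))
  have h2 : ∀ j : Fin 3, ∀ θ ∈ Ioo 0 aa, (K (tt ^ (j : ℕ) * ee θ) -
      Ph (tt ^ (j : ℕ) * ee θ)) ^ 2 = (tt ^ (j : ℕ)) ^ 2 * (tt - 1) ^ 2 *
        (((f j θ - be θ) ^ 2 : ℝ) : ℂ) := by
    intro j θ hθ
    rw [hf j θ hθ, Ph_mul (tt_pow j), Ph_ee hθ.1.le hθ.2.le]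
    push_cast
    ring
  have h3 : ∀ j : Fin 3, tt ^ (j : ℕ) * ∫ θ in (0 : ℝ)..aa, (K (tt ^ (j : ℕ) * ee θ) -
      Ph (tt ^ (j : ℕ) * ee θ)) ^ 2 * (gg θ : ℂ) =
      (tt - 1) ^ 2 * ((∫ θ in (0 : ℝ)..aa, (f j θ - be θ) ^ 2 * gg θ : ℝ) : ℂ) := by
    intro j
    rw [← intervalIntegral.integral_ofReal, ← intervalIntegral.integral_const_mul,
      ← intervalIntegral.integral_const_mul]
    apply intervalIntegral.integral_congr_ae
    filter_upwards [ae_Ioo le_rfl] with θ h5 h6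
    rw [h2 j θ (h5 h6 aa_pos.le)]
    have := tt_pow j
    push_cast
    linear_combination ((tt - 1) ^ 2 * (f j θ - be θ) ^ 2 * gg θ) * this
  simp only [h3] at h1
  rw [← Finset.mul_sum] at h1
  have h4 := (mul_eq_zero.1 h1).resolve_left (pow_ne_zero 2 tt_ne)
  have h5 : ∑ j : Fin 3, ∫ θ in (0 : ℝ)..aa, (f j θ - be θ) ^ 2 * gg θ = 0 := by
    exact_mod_cast h4
  have h6 : ∀ j : Fin 3, 0 ≤ ∫ θ in (0 : ℝ)..aa, (f j θ - be θ) ^ 2 * gg θ := by
    intro j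
    apply intervalIntegral.integral_nonneg_of_ae_restrict aa_pos.le
    rw [← restrict_Ioo_eq_restrict_Icc]
    filter_upwards [ae_restrict_mem measurableSet_Ioo] with θ hθ
    exact mul_nonneg (sq_nonneg _) (gg_pos hθ).le
  have h7 : ∫ θ in (0 : ℝ)..aa, (f 0 θ - be θ) ^ 2 * gg θ = 0 :=
    (Finset.sum_eq_zero_iff_of_nonneg (fun j _ => h6 j)).1 h5 0 (Finset.mem_univ _)
  -- continuity
  have hcf : ContinuousOn (fun θ => (f 0 θ - be θ) ^ 2) (Ioo 0 aa) := by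
    have e1 : ContinuousOn (fun θ => ((K (tt ^ (0 : ℕ) * ee θ) -
      Ph (tt ^ (0 : ℕ) * ee θ)) ^ 2 / (tt - 1) ^ 2).re) (Ioo 0 aa) := by
      apply Complex.continuous_re.comp_continuousOn
      exact (arc_cont hcK 0).div_const _
    apply e1.congr
    intro θ hθ
    have h8 := h2 0 θ hθ
    simp only [Fin.val_zero] at h8
    simp only
    rw [h8, pow_zero, one_pow, one_mul, mul_div_right_comm, div_self (pow_ne_zero 2 tt_ne),
      one_mul, ofReal_re]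
  have hcg : ContinuousOn gg (Ioo 0 aa) := by
    intro θ hθ
    apply ContinuousAt.continuousWithinAt
    unfold gg
    apply ContinuousAt.rpow_const (by fun_prop)
    left
    have := sin_pos' hθ
    positivity
  have hb0 : ∀ θ ∈ Ioo 0 aa, (f 0 θ - be θ) ^ 2 ≤ (B + B') ^ 2 / ‖tt - 1‖ ^ 2 := by
    intro θ hθ
    have h8 := h2 0 θ hθ
    have h9 := hBK _ (mem_Dm' (tt_pow ((0 : Fin 3) : ℕ)) hθ)
    have hp : 0 < ‖tt - 1‖ ^ 2 := pow_pos (norm_pos_iff.2 tt_ne) 2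
    rw [h8, norm_mul, norm_mul, norm_pow, norm_pow, norm_real, Real.norm_eq_abs,
      abs_of_nonneg (sq_nonneg _)] at h9
    rw [le_div_iff₀ hp]
    simp only [Fin.val_zero, pow_zero, one_pow, one_mul, norm_pow] at h9
    linarith
  have hint : IntervalIntegrable (fun θ => (f 0 θ - be θ) ^ 2 * gg θ) volume 0 aa := by
    apply (gg_int.const_mul ((B + B') ^ 2 / ‖tt - 1‖ ^ 2)).mono_fun'
    · rw [uIoc_of_le aa_pos.le, ← restrict_Ioo_eq_restrict_Ioc]
      exact (hcf.mul hcg).aestronglyMeasurable measurableSet_Ioo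
    · filter_upwards [ae_uIoc_Ioo] with θ hθ
      rw [norm_mul, Real.norm_eq_abs, Real.norm_eq_abs, abs_of_pos (gg_pos hθ),
        abs_of_nonneg (sq_nonneg _)]
      exact mul_le_mul_of_nonneg_right (hb0 θ hθ) (gg_pos hθ).le
  rw [intervalIntegral.integral_of_le aa_pos.le, integral_Ioc_eq_integral_Ioo,
    setIntegral_eq_zero_iff_of_nonneg_ae] at h7
  · have h8 := Measure.eqOn_open_of_ae_eq h7 isOpen_Ioo (hcf.mul hcg) continuousOn_const
    intro θ hθ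
    have h9 := h8 hθ
    simp only [Pi.zero_apply] at h9
    have h10 : (f 0 θ - be θ) ^ 2 = 0 := (mul_eq_zero.1 h9).resolve_right (gg_pos hθ).ne'
    have h11 := pow_eq_zero_iff (two_ne_zero) |>.1 h10
    linarith
  · filter_upwards [ae_restrict_mem measurableSet_Ioo] with θ hθ
    exact mul_nonneg (sq_nonneg _) (gg_pos hθ).le
  · rw [intervalIntegrable_iff_integrableOn_Ioo_of_le aa_pos.le] at hint
    exact hint

end Pool.Agent.H45.UC
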